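import Pool.Agent.TH225.MX.Pts

set_option autoImplicit false

/-!
Nine point charges in `ℝ^8` whose potential has seventy nondegenerate critical points.
-/

namespace Pool.Agent.TH225.MX

open Filter Topology

/-- The positions. -/
noncomputable def pos : Fin 9 → E := Fin.cons 0 b

/-- The charges. -/
noncomputable def chg : Fin 9 → ℝ := Fin.cons (-1 / 1250) fun _ => 1

/-- The sign vector of a set. -/
noncomputable def sg (K : Finset (Fin 8)) (j : Fin 8) : ℝ := if j ∈ K then 1 else -1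

/-- The seventy critical points. -/
noncomputable def crit : Finset E := by
  classical
  exact ((Finset.univ : Finset (Fin 8)).powersetCard 4).image fun K => X (sg K)

theorem sg_or (K : Finset (Fin 8)) (j : Fin 8) : sg K j = 1 ∨ sg K j = -1 := by
  unfold sg
  split_ifs
  · exact Or.inl rfl
  · exact Or.inr rfl

theorem sg_sum {K : Finset (Fin 8)} (hK : K.card = 4) : ∑ j, sg K j = 0 := by
  have h : ∀ j, sg K j = 2 * (if j ∈ K then 1 else 0) - 1 := by
    intro j
    unfold sg
    split_ifs <;> norm_num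
  rw [Finset.sum_congr rfl fun j _ => h j, Finset.sum_sub_distrib, ← Finset.mul_sum,
    Finset.sum_ite_mem, Finset.univ_inter]
  simp [hK]
  norm_num

theorem sg_inj : Function.Injective fun K => X (sg K) := by
  intro K L h
  ext j
  have h1 : sg K j = sg L j := by
    have := congrArg (fun x : E => x j) h
    exact this
  unfold sg at h1
  by_cases hK : j ∈ K <;> by_cases hL : j ∈ L <;> simp [hK, hL] at h1 ⊢ <;> norm_num at h1

theorem crit_card : crit.card = 70 := by
  unfold crit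
  rw [Finset.card_image_of_injective _ sg_inj, Finset.card_powersetCard]
  rfl

theorem chg_ne (i : Fin 9) : chg i ≠ 0 := by
  unfold chg
  refine Fin.cases ?_ (fun i => ?_) i
  · rw [Fin.cons_zero]; norm_num
  · rw [Fin.cons_succ]; norm_num

theorem b_ne (i : Fin 8) : (0 : E) ≠ b i := by
  intro h
  have := congrArg (fun x : E => x i) h
  simp [b] at this

theorem b_inj : Function.Injective b := by
  intro i j h
  have h1 := congrArg (fun x : E => x i) h
  by_contra hij
  simp only [b_apply, if_neg hij] at h1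
  norm_num at h1

theorem pos_inj : Function.Injective pos := by
  unfold pos
  rw [Fin.cons_injective_iff]
  refine ⟨?_, b_inj⟩
  rintro ⟨i, hi⟩
  exact b_ne i hi.symm

theorem X_ne {e : Fin 8 → ℝ} (he : ∀ j, e j = 1 ∨ e j = -1) (hs : ∑ j, e j = 0) (i : Fin 9) :
    X e ≠ pos i := by
  unfold pos
  refine Fin.cases ?_ (fun i => ?_) i
  · rw [Fin.cons_zero]
    intro h
    have h1 := norm_0 he
    rw [h] at h1
    simp at h1
  · rw [Fin.cons_succ]
    intro h
    have h1 := norm_b he hs i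
    rw [h, sub_self, norm_zero] at h1
    rcases he i with h2 | h2 <;> rw [h2] at h1 <;> norm_num at h1

theorem fderiv_pot (z : E) (hz : ∀ i, z ≠ pos i) :
    fderiv ℝ (fun z : E => ∑ i, chg i / ‖z - pos i‖ ^ (8 - 2)) z =
      (-6 : ℝ) • innerSL ℝ (G z) := by
  have h : HasFDerivAt (fun z : E => ∑ i, chg i / ‖z - pos i‖ ^ (8 - 2))
      (∑ i, (-6 : ℝ) • innerSL ℝ (chg i • fld (pos i) z)) z :=
    HasFDerivAt.fun_sum fun i _ => hasFDeriv_pot (chg i) (pos i) z (hz i)
  rw [h.fderiv, ← Finset.smul_sum, ← map_sum, Fin.sum_univ_succ]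
  congr 2
  unfold G pos chg
  simp

theorem fderiv_eq_zero_iff (z : E) (hz : ∀ i, z ≠ pos i) :
    fderiv ℝ (fun z : E => ∑ i, chg i / ‖z - pos i‖ ^ (8 - 2)) z = 0 ↔ G z = 0 := by
  rw [fderiv_pot z hz]
  constructor
  · intro h
    have h1 := congrArg (fun f : E →L[ℝ] ℝ => f (G z)) h
    simp at h1
    exact h1
  · intro h
    rw [h, map_zero, smul_zero]

theorem G_deriv (z : E) (hz : ∀ i, z ≠ pos i) : HasFDerivAt G (GD z) z := by
  have h0 : z ≠ 0 := by
    have := hz 0
    unfold pos at this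
    rwa [Fin.cons_zero] at this
  have hb : ∀ i, z ≠ b i := by
    intro i
    have := hz i.succ
    unfold pos at this
    rwa [Fin.cons_succ] at this
  have h1 := (hasFDeriv_fld 0 z h0).const_smul (-1 / 1250 : ℝ)
  have h2 : HasFDerivAt (fun z => ∑ i, fld (b i) z) (∑ i, fldD (b i) z) z :=
    HasFDerivAt.fun_sum fun i _ => hasFDeriv_fld (b i) z (hb i)
  exact h1.add h2

theorem isol {e : Fin 8 → ℝ} (he : ∀ j, e j = 1 ∨ e j = -1) (hs : ∑ j, e j = 0) :
    ∃ ε > (0 : ℝ), ∀ y : E, dist y (X e) < ε → y ≠ X e → G y ≠ 0 := by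
  have hker : LinearMap.ker (GD (X e)).toLinearMap = ⊥ := by
    rw [LinearMap.ker_eq_bot']
    intro v hv
    exact GD_inj he hs v hv
  obtain ⟨K, hK, hK2⟩ := LinearMap.exists_antilipschitzWith (GD (X e)).toLinearMap hker
  have h1 := (G_deriv (X e) (X_ne he hs)).eventually_ne (c := 0) ⟨K, hK2⟩
  rw [eventually_nhdsWithin_iff, Metric.eventually_nhds_iff] at h1
  obtain ⟨ε, h2, h3⟩ := h1
  exact ⟨ε, h2, fun y hy hne => h3 hy hne⟩

theorem crit_spec (x : E) (hx : x ∈ crit) : (∀ i, x ≠ pos i) ∧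
    fderiv ℝ (fun z : E => ∑ i, chg i / ‖z - pos i‖ ^ (8 - 2)) x = 0 ∧
    ∃ ε > (0 : ℝ), ∀ y : E, dist y x < ε → y ≠ x → (∀ i, y ≠ pos i) →
      fderiv ℝ (fun z : E => ∑ i, chg i / ‖z - pos i‖ ^ (8 - 2)) y ≠ 0 := by
  unfold crit at hx
  rw [Finset.mem_image] at hx
  obtain ⟨K, hK, rfl⟩ := hx
  rw [Finset.mem_powersetCard] at hK
  have he := sg_or K
  have hs := sg_sum hK.2
  refine ⟨X_ne he hs, (fderiv_eq_zero_iff _ (X_ne he hs)).2 (G_zero he hs), ?_⟩
  obtain ⟨ε, h1, h2⟩ := isol he hs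
  refine ⟨ε, h1, fun y hy hne hp => ?_⟩
  rw [Ne, fderiv_eq_zero_iff y hp]
  exact h2 y hy hne

end Pool.Agent.TH225.MX
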