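import Mathlib

set_option autoImplicit false

/-!
Point charges in `ℝ^8`: eight unit charges at `8 e_i - (1, ..., 1)` and the charge `-1/1250` at the
origin. Every balanced sign vector is a nondegenerate critical point of the potential.
-/

namespace Pool.Agent.TH225.MX

open Filter Topology

abbrev E := EuclideanSpace ℝ (Fin 8)

/-- The field of a unit charge at `c`, up to a factor. -/
noncomputable def fld (c z : E) : E := ((‖z - c‖ ^ 2) ^ 4)⁻¹ • (z - c)

/-- The derivative of the field. -/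
noncomputable def fldD (c z : E) : E →L[ℝ] E :=
  ((‖z - c‖ ^ 2) ^ 4)⁻¹ • ContinuousLinearMap.id ℝ E +
    ((-8 * ((‖z - c‖ ^ 2) ^ 5)⁻¹) • innerSL ℝ (z - c)).smulRight (z - c)

theorem sq_pos' {c z : E} (h : z ≠ c) : 0 < ‖z - c‖ ^ 2 :=
  pow_pos (norm_pos_iff.2 (sub_ne_zero.2 h)) 2

theorem hasFDeriv_sq (c z : E) :
    HasFDerivAt (fun z : E => ‖z - c‖ ^ 2) (2 • innerSL ℝ (z - c)) z := by
  have h := (hasStrictFDerivAt_norm_sq (z - c)).hasFDerivAt.comp z
    ((hasFDerivAt_id (𝕜 := ℝ) z).sub_const c)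
  rw [ContinuousLinearMap.comp_id] at h
  exact h

theorem der1 (q t : ℝ) (ht : 0 < t) : HasDerivAt (fun t : ℝ => q / t ^ 3) (-3 * q / t ^ 4) t := by
  have h3 := (hasDerivAt_const t q).div (hasDerivAt_pow 3 t) (pow_ne_zero 3 ht.ne')
  refine h3.congr_deriv ?_
  have := ht.ne'
  norm_num
  field_simp

theorem der2 (t : ℝ) (ht : 0 < t) : HasDerivAt (fun t : ℝ => (t ^ 4)⁻¹) (-4 * (t ^ 5)⁻¹) t := by
  have h3 := (hasDerivAt_pow 4 t).inv (pow_ne_zero 4 ht.ne')
  refine h3.congr_deriv ?_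
  have := ht.ne'
  norm_num
  field_simp

theorem hasFDeriv_pot (q : ℝ) (c z : E) (h : z ≠ c) :
    HasFDerivAt (fun z : E => q / ‖z - c‖ ^ 6) ((-6 : ℝ) • innerSL ℝ (q • fld c z)) z := by
  have ht := sq_pos' h
  have h2 := der1 q _ ht
  have h4 := h2.comp_hasFDerivAt z (hasFDeriv_sq c z)
  have e1 : (fun z : E => q / ‖z - c‖ ^ 6) = (fun t : ℝ => q / t ^ 3) ∘ fun z : E => ‖z - c‖ ^ 2 := by
    funext w
    simp only [Function.comp_apply]
    rw [← pow_mul]
  rw [e1]
  refine h4.congr_fderiv ?_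
  ext v
  simp only [fld, smul_apply, map_smul, smul_eq_mul, nsmul_eq_mul, innerSL_apply_apply]
  push_cast
  ring

theorem hasFDeriv_fld (c z : E) (h : z ≠ c) : HasFDerivAt (fld c) (fldD c z) z := by
  have ht := sq_pos' h
  have h2 := der2 _ ht
  have h4 := h2.comp_hasFDerivAt z (hasFDeriv_sq c z)
  have h5 : HasFDerivAt (fun z : E => z - c) (ContinuousLinearMap.id ℝ E) z :=
    (hasFDerivAt_id (𝕜 := ℝ) z).sub_const c
  have h6 := h4.smul h5
  refine h6.congr_fderiv ?_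
  ext1 v
  simp only [fldD, add_apply, smul_apply, ContinuousLinearMap.smulRight_apply,
    ContinuousLinearMap.id_apply, smul_eq_mul, nsmul_eq_mul, Function.comp_apply, Nat.cast_ofNat]
  congr 2
  ring

end Pool.Agent.TH225.MX
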