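import Mathlib

set_option autoImplicit false

/-!
Point charges in `ℝ^n`, `n = 2 (k + 1)`: `n` unit charges at `n e_i - (1, ..., 1)` and a negative
charge at the origin. Every balanced sign vector is a nondegenerate critical point of the potential.
-/

namespace Pool.Agent.TH225.MXG

open Filter Topology

variable {k : ℕ}

abbrev E (k : ℕ) := EuclideanSpace ℝ (Fin (2 * (k + 1)))

/-- The field of a unit charge at `c`, up to a factor. -/
noncomputable def fld (c z : E k) : E k := ((‖z - c‖ ^ 2) ^ (k + 1))⁻¹ • (z - c)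

/-- The derivative of the field. -/
noncomputable def fldD (c z : E k) : E k →L[ℝ] E k :=
  ((‖z - c‖ ^ 2) ^ (k + 1))⁻¹ • ContinuousLinearMap.id ℝ (E k) +
    ((-(2 * ((k : ℝ) + 1)) * ((‖z - c‖ ^ 2) ^ (k + 2))⁻¹) • innerSL ℝ (z - c)).smulRight (z - c)

theorem sq_pos' {c z : E k} (h : z ≠ c) : 0 < ‖z - c‖ ^ 2 :=
  pow_pos (norm_pos_iff.2 (sub_ne_zero.2 h)) 2

theorem hasFDeriv_sq (c z : E k) :
    HasFDerivAt (fun z : E k => ‖z - c‖ ^ 2) (2 • innerSL ℝ (z - c)) z := by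
  have h := (hasStrictFDerivAt_norm_sq (z - c)).hasFDerivAt.comp z
    ((hasFDerivAt_id (𝕜 := ℝ) z).sub_const c)
  rw [ContinuousLinearMap.comp_id] at h
  exact h

theorem der2 (j : ℕ) (t : ℝ) (ht : 0 < t) :
    HasDerivAt (fun t : ℝ => (t ^ (j + 1))⁻¹) (-((j : ℝ) + 1) * (t ^ (j + 2))⁻¹) t := by
  have h3 := (hasDerivAt_pow (j + 1) t).inv (pow_ne_zero (j + 1) ht.ne')
  refine h3.congr_deriv ?_
  have h4 := ht.ne'
  rw [Nat.add_sub_cancel]
  push_cast
  field_simp
  ring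

theorem der1 (k : ℕ) (hk : 1 ≤ k) (q t : ℝ) (ht : 0 < t) :
    HasDerivAt (fun t : ℝ => q / t ^ k) (-(k : ℝ) * q / t ^ (k + 1)) t := by
  obtain ⟨j, rfl⟩ := Nat.exists_eq_add_of_le' hk
  have h3 := (der2 j t ht).const_mul q
  have e : (fun t : ℝ => q / t ^ (j + 1)) = fun t => q * (t ^ (j + 1))⁻¹ := by
    funext t; rw [div_eq_mul_inv]
  rw [e]
  refine h3.congr_deriv ?_
  push_cast
  rw [div_eq_mul_inv]
  ring

theorem hasFDeriv_pot (hk : 1 ≤ k) (q : ℝ) (c z : E k) (h : z ≠ c) :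
    HasFDerivAt (fun z : E k => q / ‖z - c‖ ^ (2 * k))
      ((-(2 * (k : ℝ))) • innerSL ℝ (q • fld c z)) z := by
  have ht := sq_pos' h
  have h2 := der1 k hk q _ ht
  have h4 := h2.comp_hasFDerivAt z (hasFDeriv_sq c z)
  have e1 : (fun z : E k => q / ‖z - c‖ ^ (2 * k)) =
      (fun t : ℝ => q / t ^ k) ∘ fun z : E k => ‖z - c‖ ^ 2 := by
    funext w
    simp only [Function.comp_apply]
    rw [← pow_mul]
  rw [e1]
  refine h4.congr_fderiv ?_
  ext v
  simp only [fld, smul_apply, map_smul, smul_eq_mul, nsmul_eq_mul, innerSL_apply_apply]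
  push_cast
  ring

theorem hasFDeriv_fld (c z : E k) (h : z ≠ c) : HasFDerivAt (fld c) (fldD c z) z := by
  have ht := sq_pos' h
  have h2 := der2 k _ ht
  have h4 := h2.comp_hasFDerivAt z (hasFDeriv_sq c z)
  have h5 : HasFDerivAt (fun z : E k => z - c) (ContinuousLinearMap.id ℝ (E k)) z :=
    (hasFDerivAt_id (𝕜 := ℝ) z).sub_const c
  have h6 := h4.smul h5
  refine h6.congr_fderiv ?_
  ext1 v
  simp only [fldD, add_apply, smul_apply, ContinuousLinearMap.smulRight_apply,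
    ContinuousLinearMap.id_apply, smul_eq_mul, nsmul_eq_mul, Function.comp_apply, Nat.cast_ofNat]
  congr 2
  ring

end Pool.Agent.TH225.MXG
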