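import Pool.Agent.TH225.MX.GPts

set_option autoImplicit false

/-!
`n + 1` point charges in `ℝ^n`, `n = 2 (k + 1)`, whose potential has `n.choose (n / 2)`
nondegenerate critical points.
-/

namespace Pool.Agent.TH225.MXG

open Filter Topology

variable {k : ℕ}

/-- The positions. -/
noncomputable def pos (k : ℕ) : Fin (2 * (k + 1) + 1) → E k := Fin.cons 0 b

/-- The charges. -/
noncomputable def chg (k : ℕ) : Fin (2 * (k + 1) + 1) → ℝ := Fin.cons (q0 k) fun _ => 1

/-- The sign vector of a set. -/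
noncomputable def sg (K : Finset (Fin (2 * (k + 1)))) (j : Fin (2 * (k + 1))) : ℝ :=
  if j ∈ K then 1 else -1

/-- The critical points. -/
noncomputable def crit (k : ℕ) : Finset (E k) := by
  classical
  exact ((Finset.univ : Finset (Fin (2 * (k + 1)))).powersetCard (k + 1)).image fun K => X (sg K)

theorem sg_or (K : Finset (Fin (2 * (k + 1)))) (j : Fin (2 * (k + 1))) :
    sg K j = 1 ∨ sg K j = -1 := by
  unfold sg
  split_ifs
  · exact Or.inl rfl
  · exact Or.inr rfl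

theorem sg_sum {K : Finset (Fin (2 * (k + 1)))} (hK : K.card = k + 1) : ∑ j, sg K j = 0 := by
  have h : ∀ j, sg K j = 2 * (if j ∈ K then 1 else 0) - 1 := by
    intro j
    unfold sg
    split_ifs <;> norm_num
  rw [Finset.sum_congr rfl fun j _ => h j, Finset.sum_sub_distrib, ← Finset.mul_sum,
    Finset.sum_ite_mem, Finset.univ_inter]
  simp [hK]

theorem sg_inj : Function.Injective fun K : Finset (Fin (2 * (k + 1))) => X (sg K) := by
  intro K L h
  ext j
  have h1 : sg K j = sg L j := by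
    have := congrArg (fun x : E k => x j) h
    exact this
  unfold sg at h1
  by_cases hK : j ∈ K <;> by_cases hL : j ∈ L <;> simp [hK, hL] at h1 ⊢ <;> norm_num at h1

theorem crit_card : (crit k).card = (2 * (k + 1)).choose (k + 1) := by
  unfold crit
  rw [Finset.card_image_of_injective _ sg_inj, Finset.card_powersetCard, Finset.card_univ,
    Fintype.card_fin]

theorem q0_ne (hk : 1 ≤ k) : q0 k ≠ 0 := by
  have h := nu_ge hk
  unfold q0
  have h1 : 0 < nu k * ((nu k + 2) ^ (k + 1))⁻¹ := by positivity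
  intro h2
  linarith

theorem chg_ne (hk : 1 ≤ k) (i : Fin (2 * (k + 1) + 1)) : chg k i ≠ 0 := by
  unfold chg
  refine Fin.cases ?_ (fun i => ?_) i
  · rw [Fin.cons_zero]; exact q0_ne hk
  · rw [Fin.cons_succ]; norm_num

theorem b_ne (hk : 1 ≤ k) (i : Fin (2 * (k + 1))) : (0 : E k) ≠ b i := by
  intro h
  have h1 : (0 : E k) i = (b i) i := by rw [← h]
  rw [b_apply, if_pos rfl] at h1
  have h2 := nu_ge hk
  change (0 : ℝ) = nu k - 1 at h1
  linarith

theorem b_inj (hk : 1 ≤ k) : Function.Injective (b (k := k)) := by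
  intro i j h
  have h1 : (b i) i = (b j) i := by rw [h]
  by_contra hij
  rw [b_apply, b_apply, if_pos rfl, if_neg hij] at h1
  have h2 := nu_ge hk
  linarith

theorem pos_inj (hk : 1 ≤ k) : Function.Injective (pos k) := by
  unfold pos
  rw [Fin.cons_injective_iff]
  refine ⟨?_, b_inj hk⟩
  rintro ⟨i, hi⟩
  exact b_ne hk i hi.symm

theorem X_ne (hk : 1 ≤ k) {e : Fin (2 * (k + 1)) → ℝ} (he : ∀ j, e j = 1 ∨ e j = -1)
    (hs : ∑ j, e j = 0) (i : Fin (2 * (k + 1) + 1)) : X e ≠ pos k i := by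
  have h2 := nu_ge hk
  unfold pos
  refine Fin.cases ?_ (fun i => ?_) i
  · rw [Fin.cons_zero]
    intro h
    have h1 := norm_0 he
    rw [h, sub_self, norm_zero] at h1
    norm_num at h1
    linarith
  · rw [Fin.cons_succ]
    intro h
    have h1 := norm_b he hs i
    rw [h, sub_self, norm_zero] at h1
    rcases he i with h3 | h3 <;> rw [h3] at h1 <;> nlinarith

theorem fderiv_pot (hk : 1 ≤ k) (z : E k) (hz : ∀ i, z ≠ pos k i) :
    fderiv ℝ (fun z : E k => ∑ i, chg k i / ‖z - pos k i‖ ^ (2 * k)) z =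
      (-(2 * (k : ℝ))) • innerSL ℝ (G z) := by
  have h : HasFDerivAt (fun z : E k => ∑ i, chg k i / ‖z - pos k i‖ ^ (2 * k))
      (∑ i, (-(2 * (k : ℝ))) • innerSL ℝ (chg k i • fld (pos k i) z)) z :=
    HasFDerivAt.fun_sum fun i _ => hasFDeriv_pot hk (chg k i) (pos k i) z (hz i)
  rw [h.fderiv, ← Finset.smul_sum, ← map_sum, Fin.sum_univ_succ]
  congr 2
  unfold G pos chg
  simp

theorem G_deriv (z : E k) (hz : ∀ i, z ≠ pos k i) : HasFDerivAt G (GD z) z := by
  have h0 : z ≠ 0 := by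
    have := hz 0
    unfold pos at this
    rwa [Fin.cons_zero] at this
  have hb : ∀ i, z ≠ b i := by
    intro i
    have := hz i.succ
    unfold pos at this
    rwa [Fin.cons_succ] at this
  have h1 := (hasFDeriv_fld 0 z h0).const_smul (q0 k)
  have h2 : HasFDerivAt (fun z => ∑ i, fld (b i) z) (∑ i, fldD (b i) z) z :=
    HasFDerivAt.fun_sum fun i _ => hasFDeriv_fld (b i) z (hb i)
  exact h1.add h2

theorem isOpen_good : IsOpen {z : E k | ∀ i, z ≠ pos k i} := by
  have : {z : E k | ∀ i, z ≠ pos k i} = ⋂ i, {pos k i}ᶜ := by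
    ext z; simp
  rw [this]
  exact isOpen_iInter_of_finite fun i => isOpen_compl_singleton

theorem second (hk : 1 ≤ k) (z : E k) (hz : ∀ i, z ≠ pos k i) :
    HasFDerivAt (fderiv ℝ (fun z : E k => ∑ i, chg k i / ‖z - pos k i‖ ^ (2 * k)))
      ((-(2 * (k : ℝ))) • (innerSL ℝ).comp (GD z)) z := by
  have h0 : HasFDerivAt (fun z : E k => innerSL ℝ (G z)) ((innerSL ℝ).comp (GD z)) z :=
    (innerSL ℝ).hasFDerivAt.comp z (G_deriv z hz)
  have h1 : HasFDerivAt (fun z : E k => (-(2 * (k : ℝ))) • innerSL ℝ (G z))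
      ((-(2 * (k : ℝ))) • (innerSL ℝ).comp (GD z)) z := h0.const_smul (-(2 * (k : ℝ)))
  refine h1.congr_of_eventuallyEq ?_
  filter_upwards [isOpen_good.mem_nhds hz] with y hy
  exact fderiv_pot hk y hy

theorem isol (hk : 1 ≤ k) {e : Fin (2 * (k + 1)) → ℝ} (he : ∀ j, e j = 1 ∨ e j = -1)
    (hs : ∑ j, e j = 0) :
    ∃ ε > (0 : ℝ), ∀ y : E k, dist y (X e) < ε → y ≠ X e → G y ≠ 0 := by
  have hker : LinearMap.ker (GD (X e)).toLinearMap = ⊥ := by
    rw [LinearMap.ker_eq_bot']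
    intro v hv
    exact GD_inj he hs hk v hv
  obtain ⟨K, hK, hK2⟩ := LinearMap.exists_antilipschitzWith (GD (X e)).toLinearMap hker
  have h1 := (G_deriv (X e) (X_ne hk he hs)).eventually_ne (c := 0) ⟨K, hK2⟩
  rw [eventually_nhdsWithin_iff, Metric.eventually_nhds_iff] at h1
  obtain ⟨ε, h2, h3⟩ := h1
  exact ⟨ε, h2, fun y hy hne => h3 hy hne⟩

theorem fderiv_eq_zero_iff (hk : 1 ≤ k) (z : E k) (hz : ∀ i, z ≠ pos k i) :
    fderiv ℝ (fun z : E k => ∑ i, chg k i / ‖z - pos k i‖ ^ (2 * k)) z = 0 ↔ G z = 0 := by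
  have hk1 : (1 : ℝ) ≤ k := by exact_mod_cast hk
  rw [fderiv_pot hk z hz]
  constructor
  · intro h
    have h1 := congrArg (fun f : E k →L[ℝ] ℝ => f (G z)) h
    simp only [smul_apply, innerSL_apply_apply, smul_eq_mul, zero_apply,
      real_inner_self_eq_norm_sq] at h1
    rcases mul_eq_zero.1 h1 with h2 | h2
    · linarith
    · exact norm_eq_zero.1 (pow_eq_zero_iff (two_ne_zero) |>.1 h2)
  · intro h
    rw [h, map_zero, smul_zero]

/-- The critical points are nondegenerate and isolated. -/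
theorem crit_spec (hk : 1 ≤ k) (x : E k) (hx : x ∈ crit k) : (∀ i, x ≠ pos k i) ∧
    fderiv ℝ (fun z : E k => ∑ i, chg k i / ‖z - pos k i‖ ^ (2 * k)) x = 0 ∧
    (∃ D : E k →L[ℝ] E k →L[ℝ] ℝ,
      HasFDerivAt (fderiv ℝ (fun z : E k => ∑ i, chg k i / ‖z - pos k i‖ ^ (2 * k))) D x ∧
      ∀ v, (∀ w, D v w = 0) → v = 0) ∧
    ∃ ε > (0 : ℝ), ∀ y : E k, dist y x < ε → y ≠ x → (∀ i, y ≠ pos k i) →
      fderiv ℝ (fun z : E k => ∑ i, chg k i / ‖z - pos k i‖ ^ (2 * k)) y ≠ 0 := by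
  unfold crit at hx
  rw [Finset.mem_image] at hx
  obtain ⟨K, hK, rfl⟩ := hx
  rw [Finset.mem_powersetCard] at hK
  have he := sg_or K
  have hs := sg_sum hK.2
  have hk1 : (1 : ℝ) ≤ k := by exact_mod_cast hk
  refine ⟨X_ne hk he hs, (fderiv_eq_zero_iff hk _ (X_ne hk he hs)).2 (G_zero he hs hk),
    ⟨_, second hk _ (X_ne hk he hs), fun v hv => ?_⟩, ?_⟩
  · refine GD_inj he hs hk v ?_
    have h1 := hv (GD (X (sg K)) v)
    simp only [smul_apply, ContinuousLinearMap.comp_apply, innerSL_apply_apply, smul_eq_mul,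
      real_inner_self_eq_norm_sq] at h1
    rcases mul_eq_zero.1 h1 with h2 | h2
    · linarith
    · exact norm_eq_zero.1 (pow_eq_zero_iff (two_ne_zero) |>.1 h2)
  · obtain ⟨ε, h1, h2⟩ := isol hk he hs
    refine ⟨ε, h1, fun y hy hne hp => ?_⟩
    rw [Ne, fderiv_eq_zero_iff hk y hp]
    exact h2 y hy hne

end Pool.Agent.TH225.MXG
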