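import Pool.Agent.TH225.MX.GCal

set_option autoImplicit false

/-!
The balanced sign vectors are nondegenerate critical points.
-/

namespace Pool.Agent.TH225.MXG

open Filter Topology

variable {k : ℕ}

/-- The dimension as a real number. -/
noncomputable def nu (k : ℕ) : ℝ := 2 * ((k : ℝ) + 1)

theorem nu_ge (hk : 1 ≤ k) : 4 ≤ nu k := by
  have : (1 : ℝ) ≤ k := by exact_mod_cast hk
  unfold nu; linarith

theorem nu_cast : ((2 * (k + 1) : ℕ) : ℝ) = nu k := by
  unfold nu; push_cast; ring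

/-- The positions of the unit charges. -/
noncomputable def b (i : Fin (2 * (k + 1))) : E k :=
  WithLp.toLp 2 fun j => if j = i then nu k - 1 else -1

/-- A vector given by its coordinates. -/
noncomputable def X (e : Fin (2 * (k + 1)) → ℝ) : E k := WithLp.toLp 2 e

/-- The charge at the origin. -/
noncomputable def q0 (k : ℕ) : ℝ := -nu k * ((nu k + 2) ^ (k + 1))⁻¹

/-- The total field. -/
noncomputable def G (z : E k) : E k := q0 k • fld 0 z + ∑ i, fld (b i) z

/-- Its derivative. -/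
noncomputable def GD (z : E k) : E k →L[ℝ] E k := q0 k • fldD 0 z + ∑ i, fldD (b i) z

theorem sum_pick (f : Fin (2 * (k + 1)) → ℝ) (A : ℝ) (j : Fin (2 * (k + 1))) :
    ∑ i, f i * (A - (if j = i then nu k - 1 else -1)) = (A + 1) * ∑ i, f i - nu k * f j := by
  have h : ∀ i, f i * (A - (if j = i then nu k - 1 else -1)) =
      (A + 1) * f i - nu k * (if j = i then f i else 0) := by
    intro i
    split_ifs <;> ring
  rw [Finset.sum_congr rfl fun i _ => h i, Finset.sum_sub_distrib, ← Finset.mul_sum,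
    ← Finset.mul_sum, Finset.sum_ite_eq]
  simp

theorem sum_coord (f : Fin (2 * (k + 1)) → E k) (j : Fin (2 * (k + 1))) :
    (∑ i, f i) j = ∑ i, (f i) j := by
  simp

theorem b_apply (i j : Fin (2 * (k + 1))) : (b i) j = if j = i then nu k - 1 else -1 := rfl

theorem X_apply (e : Fin (2 * (k + 1)) → ℝ) (j : Fin (2 * (k + 1))) : (X e) j = e j := rfl

theorem sum_const' (c : ℝ) : ∑ _i : Fin (2 * (k + 1)), c = nu k * c := by
  rw [Finset.sum_const, Finset.card_univ, Fintype.card_fin, nsmul_eq_mul, nu_cast]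

/-- The inverse powers of the distances. -/
noncomputable def pp (k m : ℕ) : ℝ := ((nu k ^ 2 - 2 * nu k) ^ m)⁻¹
noncomputable def ww (k m : ℕ) : ℝ := ((nu k ^ 2 + 2 * nu k) ^ m)⁻¹

theorem q0_1 (hk : 1 ≤ k) : q0 k * (nu k ^ (k + 1))⁻¹ = -nu k * ww k (k + 1) := by
  have h := nu_ge hk
  unfold q0 ww
  rw [show nu k ^ 2 + 2 * nu k = (nu k + 2) * nu k by ring, mul_pow, mul_inv]
  ring

theorem q0_2 (hk : 1 ≤ k) : q0 k * (nu k ^ (k + 2))⁻¹ = -ww k (k + 1) := by
  have h := nu_ge hk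
  have h0 : nu k ≠ 0 := by linarith
  have h1 : (nu k ^ (k + 2))⁻¹ = (nu k ^ (k + 1))⁻¹ * (nu k)⁻¹ := by
    rw [pow_succ, mul_inv]
  rw [h1, ← mul_assoc, q0_1 hk]
  field_simp

theorem ww_succ (hk : 1 ≤ k) (m : ℕ) : ww k (m + 1) * (nu k ^ 2 + 2 * nu k) = ww k m := by
  have h := nu_ge hk
  have h0 : nu k ^ 2 + 2 * nu k ≠ 0 := by positivity
  unfold ww
  rw [pow_succ, mul_inv, mul_assoc, inv_mul_cancel₀ h0, mul_one]

theorem pp_succ (hk : 1 ≤ k) (m : ℕ) : pp k (m + 1) * (nu k ^ 2 - 2 * nu k) = pp k m := by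
  have h := nu_ge hk
  have h0 : nu k ^ 2 - 2 * nu k ≠ 0 := by
    have : 0 < nu k ^ 2 - 2 * nu k := by nlinarith
    exact this.ne'
  unfold pp
  rw [pow_succ, mul_inv, mul_assoc, inv_mul_cancel₀ h0, mul_one]

theorem ww_pos (hk : 1 ≤ k) (m : ℕ) : 0 < ww k m := by
  have h := nu_ge hk
  unfold ww
  positivity

theorem pp_pos (hk : 1 ≤ k) (m : ℕ) : 0 < pp k m := by
  have h := nu_ge hk
  have h0 : 0 < nu k ^ 2 - 2 * nu k := by nlinarith
  unfold pp
  positivity

theorem three_le (hk : 1 ≤ k) : 3 * ww k (k + 1) ≤ pp k (k + 1) := by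
  have h := nu_ge hk
  have h0 : 0 < nu k ^ 2 - 2 * nu k := by nlinarith
  have h1 : 0 < nu k ^ 2 + 2 * nu k := by nlinarith
  have hk1 : (1 : ℝ) ≤ k := by exact_mod_cast hk
  have hk0 : (0 : ℝ) < k := by linarith
  have h2 : 3 * (nu k ^ 2 - 2 * nu k) ^ (k + 1) ≤ (nu k ^ 2 + 2 * nu k) ^ (k + 1) := by
    have h3 : nu k ^ 2 + 2 * nu k = (nu k ^ 2 - 2 * nu k) * (1 + 2 / (k : ℝ)) := by
      unfold nu
      field_simp
      ring
    rw [h3, mul_pow]
    have h4 : (3 : ℝ) ≤ (1 + 2 / (k : ℝ)) ^ (k + 1) := by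
      have h5 := one_add_mul_le_pow (a := 2 / (k : ℝ)) (by
        have : (0 : ℝ) < 2 / (k : ℝ) := by positivity
        linarith) (k + 1)
      refine le_trans ?_ h5
      push_cast
      have : ((k : ℝ) + 1) * (2 / (k : ℝ)) = 2 + 2 / k := by field_simp
      rw [this]
      have : (0 : ℝ) < 2 / (k : ℝ) := by positivity
      linarith
    have h6 : 0 < (nu k ^ 2 - 2 * nu k) ^ (k + 1) := by positivity
    nlinarith
  unfold ww pp
  have h7 : 0 < (nu k ^ 2 - 2 * nu k) ^ (k + 1) := by positivity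
  have h8 : 0 < (nu k ^ 2 + 2 * nu k) ^ (k + 1) := by positivity
  rw [← div_eq_mul_inv, div_le_iff₀ h8, inv_mul_eq_div, le_div_iff₀ h7]
  exact h2

section

variable {e : Fin (2 * (k + 1)) → ℝ} (he : ∀ j, e j = 1 ∨ e j = -1) (hs : ∑ j, e j = 0)

include he in
theorem e_sq (j : Fin (2 * (k + 1))) : e j * e j = 1 := by
  rcases he j with h | h <;> rw [h] <;> norm_num

include he hs in
theorem norm_b (i : Fin (2 * (k + 1))) : ‖X e - b i‖ ^ 2 = nu k ^ 2 - 2 * nu k * e i := by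
  rw [EuclideanSpace.norm_sq_eq]
  have h1 : ∀ j, ‖(X e - b i) j‖ ^ 2 = 2 * e j + 2 +
      (if j = i then nu k ^ 2 - 2 * nu k - 2 * nu k * e i else 0) := by
    intro j
    rw [Real.norm_eq_abs, sq_abs]
    change (e j - (if j = i then nu k - 1 else -1)) ^ 2 = _
    have := e_sq he j
    split_ifs with h
    · rw [← h]; linear_combination this
    · linear_combination this
  rw [Finset.sum_congr rfl fun j _ => h1 j, Finset.sum_add_distrib, Finset.sum_add_distrib,
    ← Finset.mul_sum, hs, Finset.sum_ite_eq', sum_const']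
  simp
  ring

include he in
theorem norm_0 : ‖X e - 0‖ ^ 2 = nu k := by
  rw [sub_zero, EuclideanSpace.norm_sq_eq]
  have h1 : ∀ j, ‖(X e) j‖ ^ 2 = 1 := by
    intro j
    rw [Real.norm_eq_abs, sq_abs, sq]
    exact e_sq he j
  rw [Finset.sum_congr rfl fun j _ => h1 j, sum_const', mul_one]

include he hs in
theorem inv4 (m : ℕ) (i : Fin (2 * (k + 1))) : ((‖X e - b i‖ ^ 2) ^ m)⁻¹ =
    (pp k m + ww k m) / 2 + (pp k m - ww k m) / 2 * e i := by
  rw [norm_b he hs]
  unfold pp ww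
  rcases he i with h | h
  · rw [h, mul_one]; ring
  · rw [h, mul_neg, mul_one, sub_neg_eq_add]; ring

include he hs in
theorem G_zero (hk : 1 ≤ k) : G (X e) = 0 := by
  ext j
  have h1 : (G (X e)) j = q0 k * (((‖X e - 0‖ ^ 2) ^ (k + 1))⁻¹ * (e j - 0)) +
      ∑ i, ((‖X e - b i‖ ^ 2) ^ (k + 1))⁻¹ * (e j - (if j = i then nu k - 1 else -1)) := by
    unfold G
    rw [PiLp.add_apply, PiLp.smul_apply, sum_coord]
    rfl
  rw [h1, norm_0 he, Finset.sum_congr rfl fun i _ => by rw [inv4 he hs (k + 1) i], sum_pick,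
    Finset.sum_add_distrib, ← Finset.mul_sum, hs, sum_const', ← mul_assoc, q0_1 hk]
  change _ = (0 : ℝ)
  ring

theorem inner_coord (x y : E k) : inner ℝ x y = ∑ j, x j * y j := by
  rw [PiLp.inner_apply]
  refine Finset.sum_congr rfl fun j _ => ?_
  simp [mul_comm]

theorem inner_b (e : Fin (2 * (k + 1)) → ℝ) (i : Fin (2 * (k + 1))) (v : E k) :
    inner ℝ (X e - b i) v = (∑ l, e l * v l) + (∑ l, v l) - nu k * v i := by
  rw [inner_coord]
  have h1 : ∀ l, (X e - b i) l * v l = e l * v l + v l - nu k * (if l = i then v l else 0) := by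
    intro l
    change (e l - (if l = i then nu k - 1 else -1)) * v l = _
    split_ifs <;> ring
  rw [Finset.sum_congr rfl fun l _ => h1 l, Finset.sum_sub_distrib, Finset.sum_add_distrib,
    ← Finset.mul_sum, Finset.sum_ite_eq']
  simp

theorem inner_0 (e : Fin (2 * (k + 1)) → ℝ) (v : E k) :
    inner ℝ (X e - 0) v = ∑ l, e l * v l := by
  rw [inner_coord, sub_zero]
  rfl

include he hs in
theorem GD_apply (hk : 1 ≤ k) (v : E k) (j : Fin (2 * (k + 1))) : (GD (X e) v) j =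
    nu k * (pp k (k + 1) - ww k (k + 1)) / 2 * v j + nu k * ww k (k + 1) * (∑ l, e l * v l) * e j
      - nu k ^ 2 * ww k (k + 2) * (∑ l, e l * v l) * (e j + 1)
      + nu k ^ 2 * ((pp k (k + 2) + ww k (k + 2)) / 2 + (pp k (k + 2) - ww k (k + 2)) / 2 * e j) *
        ((∑ l, e l * v l) + (∑ l, v l) - nu k * v j) := by
  have h1 : (GD (X e) v) j = q0 k * (((‖X e - 0‖ ^ 2) ^ (k + 1))⁻¹ * v j +
      (-(2 * ((k : ℝ) + 1)) * ((‖X e - 0‖ ^ 2) ^ (k + 2))⁻¹) * inner ℝ (X e - 0) v * (e j - 0)) +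
      ∑ i, (((‖X e - b i‖ ^ 2) ^ (k + 1))⁻¹ * v j +
        (-(2 * ((k : ℝ) + 1)) * ((‖X e - b i‖ ^ 2) ^ (k + 2))⁻¹) * inner ℝ (X e - b i) v *
          (e j - (if j = i then nu k - 1 else -1))) := by
    unfold GD
    rw [add_apply, smul_apply, _root_.sum_apply, PiLp.add_apply, PiLp.smul_apply,
      sum_coord]
    rfl
  have hnu : 2 * ((k : ℝ) + 1) = nu k := rfl
  have h4s : ∑ i, ((‖X e - b i‖ ^ 2) ^ (k + 1))⁻¹ =
      nu k * ((pp k (k + 1) + ww k (k + 1)) / 2) := by
    rw [Finset.sum_congr rfl fun i _ => inv4 he hs (k + 1) i, Finset.sum_add_distrib,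
      ← Finset.mul_sum, hs, sum_const']
    ring
  have h2 : ∑ i, (-nu k * ((‖X e - b i‖ ^ 2) ^ (k + 2))⁻¹) * inner ℝ (X e - b i) v *
          (e j - (if j = i then nu k - 1 else -1)) =
      ∑ i, ((-nu k * ((pp k (k + 2) + ww k (k + 2)) / 2 +
        (pp k (k + 2) - ww k (k + 2)) / 2 * e i)) *
        ((∑ l, e l * v l) + (∑ l, v l) - nu k * v i)) *
          (e j - (if j = i then nu k - 1 else -1)) := by
    refine Finset.sum_congr rfl fun i _ => ?_
    rw [inv4 he hs (k + 2) i, inner_b]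
  have h5 := sum_pick (fun i => (-nu k * ((pp k (k + 2) + ww k (k + 2)) / 2 +
    (pp k (k + 2) - ww k (k + 2)) / 2 * e i)) * ((∑ l, e l * v l) + (∑ l, v l) - nu k * v i))
    (e j) j
  rw [h1, hnu, norm_0 he, inner_0, Finset.sum_add_distrib, ← Finset.sum_mul, h4s, h2, h5]
  set u := ∑ l, e l * v l with hu
  set s := ∑ l, v l with hsv
  have h3 : ∑ i, (-nu k * ((pp k (k + 2) + ww k (k + 2)) / 2 +
        (pp k (k + 2) - ww k (k + 2)) / 2 * e i)) *
        (u + s - nu k * v i) = -nu k ^ 2 * ww k (k + 2) * u := by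
    have h4 : ∀ i, (-nu k * ((pp k (k + 2) + ww k (k + 2)) / 2 +
        (pp k (k + 2) - ww k (k + 2)) / 2 * e i)) *
        (u + s - nu k * v i) = (-nu k * (pp k (k + 2) + ww k (k + 2)) / 2 * (u + s)) +
        (nu k ^ 2 * (pp k (k + 2) + ww k (k + 2)) / 2) * v i +
        (-nu k * (pp k (k + 2) - ww k (k + 2)) / 2 * (u + s)) * e i +
        (nu k ^ 2 * (pp k (k + 2) - ww k (k + 2)) / 2) * (e i * v i) := by
      intro i
      ring
    rw [Finset.sum_congr rfl fun i _ => h4 i, Finset.sum_add_distrib, Finset.sum_add_distrib,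
      Finset.sum_add_distrib, sum_const', ← Finset.mul_sum, ← Finset.mul_sum, ← Finset.mul_sum,
      hs, ← hu, ← hsv]
    ring
  rw [h3]
  have r1 := q0_1 hk
  have r2 := q0_2 hk
  linear_combination v j * r1 - nu k * u * e j * r2

include he hs in
theorem GD_inj (hk : 1 ≤ k) (v : E k) (h : GD (X e) v = 0) : v = 0 := by
  have hn := nu_ge hk
  have hw := ww_pos hk (k + 1)
  have hw2 := ww_pos hk (k + 2)
  have hp := pp_pos hk (k + 1)
  have hp2 := pp_pos hk (k + 2)
  have hws := ww_succ hk (k + 1)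
  have hps := pp_succ hk (k + 1)
  have h3w := three_le hk
  have h1 : ∀ j, nu k * (pp k (k + 1) - ww k (k + 1)) / 2 * v j
      + nu k * ww k (k + 1) * (∑ l, e l * v l) * e j
      - nu k ^ 2 * ww k (k + 2) * (∑ l, e l * v l) * (e j + 1)
      + nu k ^ 2 * ((pp k (k + 2) + ww k (k + 2)) / 2 + (pp k (k + 2) - ww k (k + 2)) / 2 * e j) *
        ((∑ l, e l * v l) + (∑ l, v l) - nu k * v j) = 0 := by
    intro j
    rw [← GD_apply he hs hk v j, h]
    rfl
  generalize hu : ∑ l, e l * v l = u at h1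
  generalize hsv : ∑ l, v l = s at h1
  have hsc : ∀ c : ℝ, ∑ _i : Fin (2 * (k + 1)), c = nu k * c := sum_const'
  generalize nu k = n at *
  generalize ww k (k + 1) = w at *
  generalize ww k (k + 2) = w2 at *
  generalize pp k (k + 1) = p at *
  generalize pp k (k + 2) = p2 at *
  change w2 * (n ^ 2 + 2 * n) = w at hws
  change p2 * (n ^ 2 - 2 * n) = p at hps
  -- the sum
  have h2 : ∑ j, (n * (p - w) / 2 * v j + n * w * u * e j - n ^ 2 * w2 * u * (e j + 1)
      + n ^ 2 * ((p2 + w2) / 2 + (p2 - w2) / 2 * e j) * (u + s - n * v j)) = 0 :=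
    Finset.sum_eq_zero fun j _ => h1 j
  have h3 : ∀ j, (n * (p - w) / 2 * v j + n * w * u * e j - n ^ 2 * w2 * u * (e j + 1)
      + n ^ 2 * ((p2 + w2) / 2 + (p2 - w2) / 2 * e j) * (u + s - n * v j)) =
      (- n ^ 2 * w2 * u + n ^ 2 * (p2 + w2) / 2 * (u + s)) +
      (n * (p - w) / 2 - n ^ 3 * (p2 + w2) / 2) * v j +
      (n * w * u - n ^ 2 * w2 * u + n ^ 2 * (p2 - w2) / 2 * (u + s)) * e j +
      (-n ^ 3 * (p2 - w2) / 2) * (e j * v j) := by
    intro j
    ring
  rw [Finset.sum_congr rfl fun j _ => h3 j, Finset.sum_add_distrib, Finset.sum_add_distrib,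
    Finset.sum_add_distrib, hsc, ← Finset.mul_sum, ← Finset.mul_sum, ← Finset.mul_sum, hs, hu,
    hsv] at h2
  have hs0 : s = 0 := by
    have h4 : (n * (p - w)) * s = 0 := by linear_combination 2 * h2
    have h5 : 0 < n * (p - w) := mul_pos (by linarith) (by linarith)
    exact (mul_eq_zero.1 h4).resolve_left h5.ne'
  subst hs0
  -- the alternating sum
  have h4 : ∑ j, e j * (n * (p - w) / 2 * v j + n * w * u * e j - n ^ 2 * w2 * u * (e j + 1)
      + n ^ 2 * ((p2 + w2) / 2 + (p2 - w2) / 2 * e j) * (u + 0 - n * v j)) = 0 :=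
    Finset.sum_eq_zero fun j _ => by rw [h1 j, mul_zero]
  have h5 : ∀ j, e j * (n * (p - w) / 2 * v j + n * w * u * e j - n ^ 2 * w2 * u * (e j + 1)
      + n ^ 2 * ((p2 + w2) / 2 + (p2 - w2) / 2 * e j) * (u + 0 - n * v j)) =
      (n * w * u - n ^ 2 * w2 * u + n ^ 2 * (p2 - w2) / 2 * u) +
      (-n ^ 3 * (p2 - w2) / 2) * v j +
      (- n ^ 2 * w2 * u + n ^ 2 * (p2 + w2) / 2 * u) * e j +
      (n * (p - w) / 2 - n ^ 3 * (p2 + w2) / 2) * (e j * v j) := by
    intro j
    linear_combination (n * w * u - n ^ 2 * w2 * u +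
      n ^ 2 * (p2 - w2) / 2 * (u - n * v j)) * e_sq he j
  rw [Finset.sum_congr rfl fun j _ => h5 j, Finset.sum_add_distrib, Finset.sum_add_distrib,
    Finset.sum_add_distrib, hsc, ← Finset.mul_sum, ← Finset.mul_sum, ← Finset.mul_sum, hs, hu,
    hsv] at h4
  have hu1 : u = 0 := by
    have h6 : (n * (p - w) / 2 + n ^ 4 * w2) * u = 0 := by
      linear_combination h4 + n ^ 2 * u * hws
    have h7 : 0 < n * (p - w) := mul_pos (by linarith) (by linarith)
    have h8 : 0 < n ^ 4 * w2 := by positivity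
    exact (mul_eq_zero.1 h6).resolve_left (by linarith)
  subst hu1
  ext j
  have h6 := h1 j
  change v j = 0
  have hnpos : 0 < n := by linarith
  rcases he j with h7 | h7
  · rw [h7] at h6
    have h8 : (n * (p - w) / 2 - n ^ 3 * p2) * v j = 0 := by linear_combination h6
    have h9 : n * (p - w) / 2 - n ^ 3 * p2 < 0 := by
      have h10 : n * p = n ^ 3 * p2 - 2 * n ^ 2 * p2 := by rw [← hps]; ring
      have h11 : 0 < n ^ 2 * p2 := by positivity
      have h12 : 0 < n ^ 3 * p2 := by positivity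
      have h13 : 0 < n * w := by positivity
      linarith
    exact (mul_eq_zero.1 h8).resolve_left h9.ne
  · rw [h7] at h6
    have h8 : (n * (p - w) / 2 - n ^ 3 * w2) * v j = 0 := by linear_combination h6
    have h9 : 0 < n * (p - w) / 2 - n ^ 3 * w2 := by
      have h10 : n * w = n ^ 3 * w2 + 2 * n ^ 2 * w2 := by rw [← hws]; ring
      have h11 : 0 < n ^ 2 * w2 := by positivity
      have h12 : n * (3 * w) ≤ n * p := mul_le_mul_of_nonneg_left h3w hnpos.le
      linarith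
    exact (mul_eq_zero.1 h8).resolve_left h9.ne'

end

end Pool.Agent.TH225.MXG
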