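import Pool.Agent.TH225.MX.Cal

set_option autoImplicit false

/-!
The balanced sign vectors are nondegenerate critical points.
-/

namespace Pool.Agent.TH225.MX

open Filter Topology

/-- The positions of the unit charges. -/
noncomputable def b (i : Fin 8) : E := WithLp.toLp 2 fun j => if j = i then 7 else -1

/-- A vector given by its coordinates. -/
noncomputable def X (e : Fin 8 → ℝ) : E := WithLp.toLp 2 e

/-- The total field. -/
noncomputable def G (z : E) : E := (-1 / 1250 : ℝ) • fld 0 z + ∑ i, fld (b i) z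

/-- Its derivative. -/
noncomputable def GD (z : E) : E →L[ℝ] E := (-1 / 1250 : ℝ) • fldD 0 z + ∑ i, fldD (b i) z

theorem sum_pick (f : Fin 8 → ℝ) (A : ℝ) (j : Fin 8) :
    ∑ i, f i * (A - (if j = i then 7 else -1)) = (A + 1) * ∑ i, f i - 8 * f j := by
  have h : ∀ i, f i * (A - (if j = i then 7 else -1)) =
      (A + 1) * f i - 8 * (if j = i then f i else 0) := by
    intro i
    split_ifs <;> ring
  rw [Finset.sum_congr rfl fun i _ => h i, Finset.sum_sub_distrib, ← Finset.mul_sum,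
    ← Finset.mul_sum, Finset.sum_ite_eq]
  simp

theorem sum_coord (f : Fin 8 → E) (j : Fin 8) : (∑ i, f i) j = ∑ i, (f i) j := by
  simp

theorem b_apply (i j : Fin 8) : (b i) j = if j = i then 7 else -1 := rfl

theorem X_apply (e : Fin 8 → ℝ) (j : Fin 8) : (X e) j = e j := rfl

section

variable {e : Fin 8 → ℝ} (he : ∀ j, e j = 1 ∨ e j = -1) (hs : ∑ j, e j = 0)

include he in
theorem e_sq (j : Fin 8) : e j * e j = 1 := by
  rcases he j with h | h <;> rw [h] <;> norm_num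

include he hs in
theorem norm_b (i : Fin 8) : ‖X e - b i‖ ^ 2 = 64 - 16 * e i := by
  rw [EuclideanSpace.norm_sq_eq]
  have h1 : ∀ j, ‖(X e - b i) j‖ ^ 2 = (2 * e j + 2) + (if j = i then 48 - 16 * e j else 0) := by
    intro j
    rw [Real.norm_eq_abs, sq_abs]
    change (e j - (if j = i then 7 else -1)) ^ 2 = _
    have := e_sq he j
    split_ifs
    · linear_combination this
    · linear_combination this
  rw [Finset.sum_congr rfl fun j _ => h1 j, Finset.sum_add_distrib, Finset.sum_add_distrib,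
    ← Finset.mul_sum, hs, Finset.sum_ite_eq']
  simp
  ring

include he in
theorem norm_0 : ‖X e - 0‖ ^ 2 = 8 := by
  rw [sub_zero, EuclideanSpace.norm_sq_eq]
  have h1 : ∀ j, ‖(X e) j‖ ^ 2 = 1 := by
    intro j
    rw [Real.norm_eq_abs, sq_abs, sq]
    exact e_sq he j
  rw [Finset.sum_congr rfl fun j _ => h1 j]
  simp

include he hs in
theorem inv4 (i : Fin 8) : ((‖X e - b i‖ ^ 2) ^ 4)⁻¹ =
    (1 / 48 ^ 4 + 1 / 80 ^ 4) / 2 + (1 / 48 ^ 4 - 1 / 80 ^ 4) / 2 * e i := by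
  rw [norm_b he hs]
  rcases he i with h | h <;> rw [h] <;> norm_num

include he hs in
theorem inv5 (i : Fin 8) : ((‖X e - b i‖ ^ 2) ^ 5)⁻¹ =
    (1 / 48 ^ 5 + 1 / 80 ^ 5) / 2 + (1 / 48 ^ 5 - 1 / 80 ^ 5) / 2 * e i := by
  rw [norm_b he hs]
  rcases he i with h | h <;> rw [h] <;> norm_num

include he hs in
theorem G_zero : G (X e) = 0 := by
  ext j
  have h1 : (G (X e)) j = (-1 / 1250 : ℝ) * (((‖X e - 0‖ ^ 2) ^ 4)⁻¹ * (e j - 0)) +
      ∑ i, ((‖X e - b i‖ ^ 2) ^ 4)⁻¹ * (e j - (if j = i then 7 else -1)) := by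
    unfold G
    rw [PiLp.add_apply, PiLp.smul_apply, sum_coord]
    rfl
  rw [h1, norm_0 he, Finset.sum_congr rfl fun i _ => by rw [inv4 he hs i], sum_pick,
    Finset.sum_add_distrib, ← Finset.mul_sum, hs]
  simp
  ring

theorem inner_coord (x y : E) : inner ℝ x y = ∑ j, x j * y j := by
  rw [PiLp.inner_apply]
  refine Finset.sum_congr rfl fun j _ => ?_
  simp [mul_comm]

theorem inner_b (e : Fin 8 → ℝ) (i : Fin 8) (v : E) :
    inner ℝ (X e - b i) v = (∑ k, e k * v k) + (∑ k, v k) - 8 * v i := by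
  rw [inner_coord]
  have h1 : ∀ k, (X e - b i) k * v k = e k * v k + v k - 8 * (if k = i then v k else 0) := by
    intro k
    change (e k - (if k = i then 7 else -1)) * v k = _
    split_ifs <;> ring
  rw [Finset.sum_congr rfl fun k _ => h1 k, Finset.sum_sub_distrib, Finset.sum_add_distrib,
    ← Finset.mul_sum, Finset.sum_ite_eq']
  simp

theorem inner_0 (e : Fin 8 → ℝ) (v : E) :
    inner ℝ (X e - 0) v = ∑ k, e k * v k := by
  rw [inner_coord, sub_zero]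
  rfl

include he hs in
theorem GD_apply (v : E) (j : Fin 8) : (GD (X e) v) j =
    (4 / 48 ^ 4 - 4 / 80 ^ 4) * v j + (∑ k, e k * v k) * e j / (1250 * 8 ^ 4)
      - 64 / 80 ^ 5 * (∑ k, e k * v k) * (e j + 1)
      + 64 * ((1 / 48 ^ 5 + 1 / 80 ^ 5) / 2 + (1 / 48 ^ 5 - 1 / 80 ^ 5) / 2 * e j) *
        ((∑ k, e k * v k) + (∑ k, v k) - 8 * v j) := by
  have h1 : (GD (X e) v) j = (-1 / 1250 : ℝ) * (((‖X e - 0‖ ^ 2) ^ 4)⁻¹ * v j +
      (-8 * ((‖X e - 0‖ ^ 2) ^ 5)⁻¹) * inner ℝ (X e - 0) v * (e j - 0)) +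
      ∑ i, (((‖X e - b i‖ ^ 2) ^ 4)⁻¹ * v j +
        (-8 * ((‖X e - b i‖ ^ 2) ^ 5)⁻¹) * inner ℝ (X e - b i) v *
          (e j - (if j = i then 7 else -1))) := by
    unfold GD
    rw [add_apply, smul_apply, _root_.sum_apply, PiLp.add_apply, PiLp.smul_apply,
      sum_coord]
    rfl
  have h4s : ∑ i, ((‖X e - b i‖ ^ 2) ^ 4)⁻¹ = 8 * ((1 / 48 ^ 4 + 1 / 80 ^ 4) / 2) := by
    rw [Finset.sum_congr rfl fun i _ => inv4 he hs i, Finset.sum_add_distrib, ← Finset.mul_sum, hs]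
    simp
  have h2 : ∑ i, (-8 * ((‖X e - b i‖ ^ 2) ^ 5)⁻¹) * inner ℝ (X e - b i) v *
          (e j - (if j = i then 7 else -1)) =
      ∑ i, ((-8 * ((1 / 48 ^ 5 + 1 / 80 ^ 5) / 2 + (1 / 48 ^ 5 - 1 / 80 ^ 5) / 2 * e i)) *
        ((∑ k, e k * v k) + (∑ k, v k) - 8 * v i)) * (e j - (if j = i then 7 else -1)) := by
    refine Finset.sum_congr rfl fun i _ => ?_
    rw [inv5 he hs i, inner_b]
  have h5 := sum_pick (fun i => (-8 * ((1 / 48 ^ 5 + 1 / 80 ^ 5) / 2 +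
    (1 / 48 ^ 5 - 1 / 80 ^ 5) / 2 * e i)) * ((∑ k, e k * v k) + (∑ k, v k) - 8 * v i)) (e j) j
  rw [h1, norm_0 he, inner_0, Finset.sum_add_distrib, ← Finset.sum_mul, h4s, h2, h5]
  set u := ∑ k, e k * v k with hu
  set s := ∑ k, v k with hsv
  have h3 : ∑ i, (-8 * ((1 / 48 ^ 5 + 1 / 80 ^ 5) / 2 + (1 / 48 ^ 5 - 1 / 80 ^ 5) / 2 * e i)) *
        (u + s - 8 * v i) = -64 / 80 ^ 5 * u := by
    have h4 : ∀ i, (-8 * ((1 / 48 ^ 5 + 1 / 80 ^ 5) / 2 + (1 / 48 ^ 5 - 1 / 80 ^ 5) / 2 * e i)) *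
        (u + s - 8 * v i) = (-4 * (1 / 48 ^ 5 + 1 / 80 ^ 5)) * (u + s) +
        (32 * (1 / 48 ^ 5 + 1 / 80 ^ 5)) * v i +
        (-4 * (1 / 48 ^ 5 - 1 / 80 ^ 5) * (u + s)) * e i +
        (32 * (1 / 48 ^ 5 - 1 / 80 ^ 5)) * (e i * v i) := by
      intro i
      ring
    rw [Finset.sum_congr rfl fun i _ => h4 i, Finset.sum_add_distrib, Finset.sum_add_distrib,
      Finset.sum_add_distrib, ← Finset.mul_sum, ← Finset.mul_sum, ← Finset.mul_sum,
      ← Finset.mul_sum, hs, ← hu, ← hsv]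
    simp only [Finset.sum_const, Finset.card_univ, Fintype.card_fin, nsmul_eq_mul]
    push_cast
    ring
  rw [h3]
  ring

include he hs in
theorem GD_inj (v : E) (h : GD (X e) v = 0) : v = 0 := by
  have h1 : ∀ j, (4 / 48 ^ 4 - 4 / 80 ^ 4) * v j + (∑ k, e k * v k) * e j / (1250 * 8 ^ 4)
      - 64 / 80 ^ 5 * (∑ k, e k * v k) * (e j + 1)
      + 64 * ((1 / 48 ^ 5 + 1 / 80 ^ 5) / 2 + (1 / 48 ^ 5 - 1 / 80 ^ 5) / 2 * e j) *
        ((∑ k, e k * v k) + (∑ k, v k) - 8 * v j) = 0 := by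
    intro j
    rw [← GD_apply he hs v j, h]
    rfl
  have hu0 : ∑ k, e k * v k = (∑ k, e k * v k) := rfl
  generalize hu : ∑ k, e k * v k = u at h1
  generalize hsv : ∑ k, v k = s at h1
  -- the sum
  have h2 : ∑ j, ((4 / 48 ^ 4 - 4 / 80 ^ 4) * v j + u * e j / (1250 * 8 ^ 4)
      - 64 / 80 ^ 5 * u * (e j + 1)
      + 64 * ((1 / 48 ^ 5 + 1 / 80 ^ 5) / 2 + (1 / 48 ^ 5 - 1 / 80 ^ 5) / 2 * e j) *
        (u + s - 8 * v j)) = 0 := Finset.sum_eq_zero fun j _ => h1 j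
  have h3 : ∀ j, ((4 / 48 ^ 4 - 4 / 80 ^ 4) * v j + u * e j / (1250 * 8 ^ 4)
      - 64 / 80 ^ 5 * u * (e j + 1)
      + 64 * ((1 / 48 ^ 5 + 1 / 80 ^ 5) / 2 + (1 / 48 ^ 5 - 1 / 80 ^ 5) / 2 * e j) *
        (u + s - 8 * v j)) =
      ((4 / 48 ^ 4 - 4 / 80 ^ 4) - 256 * (1 / 48 ^ 5 + 1 / 80 ^ 5)) * v j +
      (u / (1250 * 8 ^ 4) - 64 / 80 ^ 5 * u + 32 * (1 / 48 ^ 5 - 1 / 80 ^ 5) * (u + s)) * e j +
      (-256 * (1 / 48 ^ 5 - 1 / 80 ^ 5)) * (e j * v j) +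
      (-64 / 80 ^ 5 * u + 32 * (1 / 48 ^ 5 + 1 / 80 ^ 5) * (u + s)) := by
    intro j
    ring
  rw [Finset.sum_congr rfl fun j _ => h3 j, Finset.sum_add_distrib, Finset.sum_add_distrib,
    Finset.sum_add_distrib, ← Finset.mul_sum, ← Finset.mul_sum, ← Finset.mul_sum, hs, hu,
    hsv] at h2
  simp only [Finset.sum_const, Finset.card_univ, Fintype.card_fin, nsmul_eq_mul] at h2
  have hs0 : s = 0 := by
    norm_num at h2
    linarith
  subst hs0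
  -- the alternating sum
  have h4 : ∑ j, e j * ((4 / 48 ^ 4 - 4 / 80 ^ 4) * v j + u * e j / (1250 * 8 ^ 4)
      - 64 / 80 ^ 5 * u * (e j + 1)
      + 64 * ((1 / 48 ^ 5 + 1 / 80 ^ 5) / 2 + (1 / 48 ^ 5 - 1 / 80 ^ 5) / 2 * e j) *
        (u + 0 - 8 * v j)) = 0 := Finset.sum_eq_zero fun j _ => by rw [h1 j, mul_zero]
  have h5 : ∀ j, e j * ((4 / 48 ^ 4 - 4 / 80 ^ 4) * v j + u * e j / (1250 * 8 ^ 4)
      - 64 / 80 ^ 5 * u * (e j + 1)
      + 64 * ((1 / 48 ^ 5 + 1 / 80 ^ 5) / 2 + (1 / 48 ^ 5 - 1 / 80 ^ 5) / 2 * e j) *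
        (u + 0 - 8 * v j)) =
      ((4 / 48 ^ 4 - 4 / 80 ^ 4) - 256 * (1 / 48 ^ 5 + 1 / 80 ^ 5)) * (e j * v j) +
      (-64 / 80 ^ 5 * u + 32 * (1 / 48 ^ 5 + 1 / 80 ^ 5) * u) * e j +
      (-256 * (1 / 48 ^ 5 - 1 / 80 ^ 5)) * v j +
      (u / (1250 * 8 ^ 4) - 64 / 80 ^ 5 * u + 32 * (1 / 48 ^ 5 - 1 / 80 ^ 5) * u) := by
    intro j
    linear_combination (u / (1250 * 8 ^ 4) - 64 / 80 ^ 5 * u +
      32 * (1 / 48 ^ 5 - 1 / 80 ^ 5) * (u - 8 * v j)) * e_sq he j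
  rw [Finset.sum_congr rfl fun j _ => h5 j, Finset.sum_add_distrib, Finset.sum_add_distrib,
    Finset.sum_add_distrib, ← Finset.mul_sum, ← Finset.mul_sum, ← Finset.mul_sum, hs, hu,
    hsv] at h4
  simp only [Finset.sum_const, Finset.card_univ, Fintype.card_fin, nsmul_eq_mul] at h4
  have hu1 : u = 0 := by
    norm_num at h4
    linarith
  subst hu1
  ext j
  have h6 := h1 j
  change v j = 0
  rcases he j with h7 | h7
  · rw [h7] at h6
    norm_num at h6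
    linarith
  · rw [h7] at h6
    norm_num at h6
    linarith

end

end Pool.Agent.TH225.MX
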